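import Pool.Agent.Helper47.SR.Goals

/-!
Packet SR-UINJ (MP_0130f7_co): the up operator is injective below the middle.
-/

namespace Pool.Agent.Helper47.SR

open Finset

namespace UInjAux

/-- reindexing of flags -/
lemma flag_sum {n k : ℕ} (g : Finset (Fin n) → Fin n → ℝ) :
    ∑ B ∈ powersetCard (k + 1) (univ : Finset (Fin n)), ∑ a ∈ B, g (B.erase a) a =
      ∑ A ∈ powersetCard k (univ : Finset (Fin n)), ∑ a ∈ Aᶜ, g A a := by
  rw [Finset.sum_sigma', Finset.sum_sigma']
  refine Finset.sum_bij' (fun x _ => (⟨x.1.erase x.2, x.2⟩ : Σ _ : Finset (Fin n), Fin n))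
    (fun x _ => (⟨insert x.2 x.1, x.2⟩ : Σ _ : Finset (Fin n), Fin n)) ?_ ?_ ?_ ?_ ?_
  · rintro ⟨B, a⟩ h
    simp only [mem_sigma, mem_powersetCard_univ, mem_compl] at h ⊢
    refine ⟨?_, by simp⟩
    rw [card_erase_of_mem h.2, h.1]; rfl
  · rintro ⟨A, a⟩ h
    simp only [mem_sigma, mem_powersetCard_univ, mem_compl] at h ⊢
    refine ⟨?_, by simp⟩
    rw [card_insert_of_notMem h.2, h.1]
  · rintro ⟨B, a⟩ h
    simp only [mem_sigma] at h
    simp [insert_erase h.2]
  · rintro ⟨A, a⟩ h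
    simp only [mem_sigma, mem_compl] at h
    simp [erase_insert h.2]
  · rintro ⟨B, a⟩ h
    rfl

end UInjAux

open UInjAux in
theorem goal_UINJ : Goal_UINJ := by
  intro n m hnm f hf
  rcases m with _ | k
  · intro A hA
    have hA' : A = ∅ := card_eq_zero.mp hA
    subst hA'
    have hn : 0 < n := by omega
    have := hf {⟨0, hn⟩} (by simp)
    simpa using this
  -- the square sum
  set m := k + 1 with hm
  have h0 : ∑ B ∈ powersetCard (m + 1) (univ : Finset (Fin n)),
      ∑ a ∈ B, f (B.erase a) * (f (B.erase a) + ∑ b ∈ B.erase a, f ((insert a (B.erase a)).erase b)) = 0 := by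
    apply sum_eq_zero
    intro B hB
    rw [mem_powersetCard_univ] at hB
    apply sum_eq_zero
    intro a ha
    rw [insert_erase ha, add_sum_erase B (fun b => f (B.erase b)) ha, hf B hB, mul_zero]
  rw [flag_sum (fun A a => f A * (f A + ∑ b ∈ A, f ((insert a A).erase b)))] at h0
  have h1 : ∀ A ∈ powersetCard m (univ : Finset (Fin n)),
      ∑ a ∈ Aᶜ, f A * (f A + ∑ b ∈ A, f ((insert a A).erase b)) =
        ((n : ℝ) - m) * f A ^ 2 + ∑ b ∈ A, ∑ a ∈ (insert b (A.erase b))ᶜ,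
          f (insert b (A.erase b)) * f (insert a (A.erase b)) := by
    intro A hA
    rw [mem_powersetCard_univ] at hA
    have e1 : ∀ a ∈ Aᶜ, f A * (f A + ∑ b ∈ A, f ((insert a A).erase b)) =
        f A ^ 2 + ∑ b ∈ A, f A * f (insert a (A.erase b)) := by
      intro a ha
      rw [mem_compl] at ha
      rw [mul_add, mul_sum, sq]
      congr 1
      apply sum_congr rfl
      intro b hb
      have hab : a ≠ b := fun h => ha (h ▸ hb)
      rw [erase_insert_of_ne hab]
    rw [sum_congr rfl e1, sum_add_distrib, sum_const, card_compl, Fintype.card_fin, hA, sum_comm,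
      nsmul_eq_mul, Nat.cast_sub (by omega)]
    congr 1
    apply sum_congr rfl
    intro b hb
    rw [insert_erase hb]
  rw [sum_congr rfl h1, sum_add_distrib, ← mul_sum] at h0
  rw [hm, flag_sum (fun C b => ∑ a ∈ (insert b C)ᶜ, f (insert b C) * f (insert a C))] at h0
  have h2 : ∀ C ∈ powersetCard k (univ : Finset (Fin n)),
      ∑ b ∈ Cᶜ, ∑ a ∈ (insert b C)ᶜ, f (insert b C) * f (insert a C) =
        (∑ a ∈ Cᶜ, f (insert a C)) ^ 2 - ∑ b ∈ Cᶜ, f (insert b C) ^ 2 := by
    intro C _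
    rw [sq (∑ a ∈ Cᶜ, f (insert a C)), sum_mul, ← sum_sub_distrib]
    apply sum_congr rfl
    intro b hb
    rw [compl_insert, ← mul_sum, ← add_sum_erase Cᶜ (fun a => f (insert a C)) hb]
    ring
  rw [sum_congr rfl h2, sum_sub_distrib] at h0
  have h3 : ∑ C ∈ powersetCard k (univ : Finset (Fin n)), ∑ b ∈ Cᶜ, f (insert b C) ^ 2 =
      ((k : ℝ) + 1) * ∑ A ∈ powersetCard (k + 1) (univ : Finset (Fin n)), f A ^ 2 := by
    rw [← flag_sum (fun C b => f (insert b C) ^ 2), mul_sum]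
    apply sum_congr rfl
    intro A hA
    rw [mem_powersetCard_univ] at hA
    have : ∀ a ∈ A, f (insert a (A.erase a)) ^ 2 = f A ^ 2 := fun a ha => by rw [insert_erase ha]
    rw [sum_congr rfl this, sum_const, hA, nsmul_eq_mul]
    push_cast; ring
  rw [h3] at h0
  have h4 : 0 ≤ ∑ C ∈ powersetCard k (univ : Finset (Fin n)), (∑ a ∈ Cᶜ, f (insert a C)) ^ 2 :=
    sum_nonneg (fun _ _ => sq_nonneg _)
  have h5 : 0 ≤ ∑ A ∈ powersetCard (k + 1) (univ : Finset (Fin n)), f A ^ 2 :=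
    sum_nonneg (fun _ _ => sq_nonneg _)
  have h6 : (1 : ℝ) ≤ n - 2 * (k + 1) := by
    have : (2 * (k + 1) + 1 : ℕ) ≤ n := hnm
    have : ((2 * (k + 1) + 1 : ℕ) : ℝ) ≤ n := by exact_mod_cast this
    push_cast at this
    linarith
  have h7 : ∑ A ∈ powersetCard (k + 1) (univ : Finset (Fin n)), f A ^ 2 = 0 := by
    push_cast at h0
    nlinarith
  intro A hA
  have h8 := (sum_eq_zero_iff_of_nonneg (fun _ _ => sq_nonneg _)).mp h7 A
    (by rw [mem_powersetCard_univ]; exact hA)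
  exact pow_eq_zero_iff (two_ne_zero) |>.mp h8

end Pool.Agent.Helper47.SR
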